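import Mathlib

open Finset

namespace Pool.Agent.Results.MP_4640da_an.NonzeroAtGenerator

/-- The free group of rank `r`. -/
abbrev F (r : ℕ) := FreeGroup (Fin r)

/-- Positive definite functions on the free group. -/
def PosDef {r : ℕ} (φ : F r → ℂ) : Prop :=
  ∀ (n : ℕ) (g : Fin n → F r) (c : Fin n → ℂ),
    0 ≤ (∑ i, ∑ j, c i * (starRingEnd ℂ) (c j) * φ ((g j)⁻¹ * g i)).re ∧
    (∑ i, ∑ j, c i * (starRingEnd ℂ) (c j) * φ ((g j)⁻¹ * g i)).im = 0

/-- The normalized positive definite functions invariant under all automorphisms. -/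
def P1Aut (r : ℕ) : Set (F r → ℂ) :=
  {φ | PosDef φ ∧ φ 1 = 1 ∧ ∀ α : F r ≃* F r, φ ∘ α = φ}

/-- the elementary abelian 2-group of rank `r` -/
abbrev V (r : ℕ) := Fin r → ℤˣ

def Psi (r : ℕ) : F r →* V r := FreeGroup.lift (fun i => Pi.mulSingle i (-1))

lemma Psi_of {r : ℕ} (i : Fin r) : Psi r (FreeGroup.of i) = Pi.mulSingle i (-1) :=
  FreeGroup.lift_apply_of

lemma Psi_surj (r : ℕ) : Function.Surjective (Psi r) := by
  intro v
  have h : v ∈ (Psi r).range := by
    rw [← Finset.univ_prod_mulSingle v]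
    apply Subgroup.prod_mem
    intro i _
    rcases Int.units_eq_one_or (v i) with h1 | h1
    · rw [h1, Pi.mulSingle_one]
      exact Subgroup.one_mem _
    · rw [h1]
      exact ⟨FreeGroup.of i, Psi_of i⟩
  exact h

lemma ker_le {r : ℕ} (θ : F r →* ℤˣ) (g : F r) (h : Psi r g = 1) : θ g = 1 := by
  classical
  let κ : V r →* ℤˣ := ∏ i, (if θ (FreeGroup.of i) = -1 then Pi.evalMonoidHom (fun _ => ℤˣ) i else 1)
  have h1 : θ = κ.comp (Psi r) := by
    apply FreeGroup.ext_hom
    intro l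
    rw [MonoidHom.comp_apply, Psi_of]
    show θ (FreeGroup.of l) = (∏ i, (if θ (FreeGroup.of i) = -1 then
      Pi.evalMonoidHom (fun _ => ℤˣ) i else 1)) (Pi.mulSingle l (-1))
    rw [MonoidHom.finsetProd_apply, Finset.prod_eq_single l]
    · rcases Int.units_eq_one_or (θ (FreeGroup.of l)) with h1 | h1
      · rw [h1, if_neg (by decide)]; rfl
      · rw [h1, if_pos rfl]; simp
    · intro i _ hi
      split_ifs
      · simp [Pi.evalMonoidHom_apply, Pi.mulSingle_eq_of_ne hi]
      · rfl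
    · intro h; exact absurd (mem_univ _) h
  rw [h1, MonoidHom.comp_apply, h, map_one]

lemma Psi_aut {r : ℕ} (α : F r ≃* F r) (g : F r) (h : Psi r g = 1) : Psi r (α g) = 1 := by
  funext j
  exact ker_le ((Pi.evalMonoidHom (fun _ => ℤˣ) j).comp ((Psi r).comp α.toMonoidHom)) g h

lemma Psi_aut_iff {r : ℕ} (α : F r ≃* F r) (g : F r) : Psi r (α g) = 1 ↔ Psi r g = 1 := by
  constructor
  · intro h
    have := Psi_aut α.symm (α g) h
    rwa [MulEquiv.symm_apply_apply] at this
  · exact Psi_aut α g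

/-- kill the generator `i` -/
def kill {r : ℕ} (i : Fin r) : F r →* F r :=
  FreeGroup.lift (fun j => if j = i then 1 else FreeGroup.of j)

/-- transvection -/
def tv {r : ℕ} (i : Fin r) (w : F r) : F r →* F r :=
  FreeGroup.lift (fun j => if j = i then FreeGroup.of i * w else FreeGroup.of j)

lemma tv_kill {r : ℕ} (i : Fin r) (w g : F r) : tv i w (kill i g) = kill i g := by
  have h : (tv i w).comp (kill i) = kill i := by
    apply FreeGroup.ext_hom
    intro j
    rw [MonoidHom.comp_apply]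
    unfold kill
    rw [FreeGroup.lift_apply_of]
    split_ifs with hj
    · rw [map_one]
    · unfold tv
      rw [FreeGroup.lift_apply_of, if_neg hj]
  exact DFunLike.congr_fun h g

lemma tv_tv {r : ℕ} (i : Fin r) (g : F r) :
    (tv i (kill i g)⁻¹).comp (tv i (kill i g)) = MonoidHom.id _ := by
  apply FreeGroup.ext_hom
  intro j
  rw [MonoidHom.comp_apply, MonoidHom.id_apply]
  by_cases hj : j = i
  · subst hj
    have h1 : tv j (kill j g) (FreeGroup.of j) = FreeGroup.of j * kill j g := by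
      unfold tv; rw [FreeGroup.lift_apply_of, if_pos rfl]
    rw [h1, map_mul, tv_kill]
    have h2 : tv j (kill j g)⁻¹ (FreeGroup.of j) = FreeGroup.of j * (kill j g)⁻¹ := by
      unfold tv; rw [FreeGroup.lift_apply_of, if_pos rfl]
    rw [h2, inv_mul_cancel_right]
  · have h1 : ∀ w, tv i w (FreeGroup.of j) = FreeGroup.of j := by
      intro w
      unfold tv; rw [FreeGroup.lift_apply_of, if_neg hj]
    rw [h1, h1]

/-- the transvection as an automorphism -/
def tvEquiv {r : ℕ} (i : Fin r) (g : F r) : F r ≃* F r :=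
  MonoidHom.toMulEquiv (tv i (kill i g)) (tv i (kill i g)⁻¹) (tv_tv i g) (by
    have h := tv_tv i g⁻¹
    rw [map_inv, inv_inv] at h
    exact h)

lemma Psi_kill {r : ℕ} (i j : Fin r) (g : F r) :
    Psi r (kill i g) j = if j = i then 1 else Psi r g j := by
  have h : (Pi.evalMonoidHom (fun _ => ℤˣ) j).comp ((Psi r).comp (kill i)) =
      if j = i then 1 else (Pi.evalMonoidHom (fun _ => ℤˣ) j).comp (Psi r) := by
    apply FreeGroup.ext_hom
    intro l
    rw [MonoidHom.comp_apply, MonoidHom.comp_apply]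
    have h1 : kill i (FreeGroup.of l) = if l = i then 1 else FreeGroup.of l := by
      unfold kill; rw [FreeGroup.lift_apply_of]
    rw [h1]
    by_cases hl : l = i
    · rw [if_pos hl, map_one, map_one]
      by_cases hj : j = i
      · rw [if_pos hj]; rfl
      · rw [if_neg hj, MonoidHom.comp_apply, Psi_of, Pi.evalMonoidHom_apply,
          Pi.mulSingle_eq_of_ne (by rw [hl]; exact hj)]
    · rw [if_neg hl, Psi_of, Pi.evalMonoidHom_apply]
      by_cases hj : j = i
      · rw [if_pos hj, Pi.mulSingle_eq_of_ne (by rw [hj]; exact fun h => hl h.symm)]; rfl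
      · rw [if_neg hj, MonoidHom.comp_apply, Psi_of, Pi.evalMonoidHom_apply]
  have h2 := DFunLike.congr_fun h g
  rw [MonoidHom.comp_apply, MonoidHom.comp_apply, Pi.evalMonoidHom_apply] at h2
  rw [h2]
  split_ifs <;> rfl

/-- transitivity of the automorphism group on nonzero classes -/
lemma transitive {r : ℕ} (i₀ : Fin r) (g : F r) (hg : Psi r g ≠ 1) :
    ∃ α : F r ≃* F r, Psi r (α (FreeGroup.of i₀)) = Psi r g := by
  obtain ⟨i, hi⟩ : ∃ i, Psi r g i ≠ 1 := by
    by_contra hcon
    push Not at hcon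
    exact hg (funext hcon)
  have hi' : Psi r g i = -1 := by
    rcases Int.units_eq_one_or (Psi r g i) with h | h
    · exact absurd h hi
    · exact h
  refine ⟨(FreeGroup.freeGroupCongr (Equiv.swap i₀ i)).trans (tvEquiv i g), ?_⟩
  have h1 : ((FreeGroup.freeGroupCongr (Equiv.swap i₀ i)).trans (tvEquiv i g)) (FreeGroup.of i₀) =
      FreeGroup.of i * kill i g := by
    rw [MulEquiv.trans_apply, FreeGroup.freeGroupCongr_apply, FreeGroup.map.of,
      Equiv.swap_apply_left]
    show tv i (kill i g) (FreeGroup.of i) = _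
    unfold tv
    rw [FreeGroup.lift_apply_of, if_pos rfl]
  rw [h1, map_mul, Psi_of]
  funext j
  rw [Pi.mul_apply, Psi_kill]
  by_cases hj : j = i
  · subst hj
    rw [if_pos rfl, Pi.mulSingle_eq_same, hi', mul_one]
  · rw [if_neg hj, Pi.mulSingle_eq_of_ne hj, one_mul]

/-- the extreme point: `1` on the kernel of `F → (ℤ/2)^r`, and `-1/(2^r-1)` elsewhere; this is the
average of the nontrivial characters of `(ℤ/2)^r` -/
noncomputable def tau (r : ℕ) (g : F r) : ℂ :=
  if Psi r g = 1 then 1 else -(1 / (((2 : ℝ) ^ r - 1 : ℝ) : ℂ))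

lemma two_pow_sub_pos {r : ℕ} (hr : 1 ≤ r) : (0 : ℝ) < 2 ^ r - 1 := by
  have h : (2 : ℝ) ^ 1 ≤ 2 ^ r := pow_le_pow_right₀ (by norm_num) hr
  linarith

lemma Psi_eq_iff {r : ℕ} (a b : F r) : Psi r (b⁻¹ * a) = 1 ↔ Psi r a = Psi r b := by
  rw [map_mul, map_inv, inv_mul_eq_one, eq_comm]

lemma tau_posdef {r : ℕ} (hr : 1 ≤ r) : PosDef (tau r) := by
  intro n g c
  set N : ℝ := 2 ^ r with hN
  have hN1 : 0 < N - 1 := two_pow_sub_pos hr
  set C : V r → ℂ := fun v => ∑ i, if Psi r (g i) = v then c i else 0 with hC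
  have hCsum : ∑ v, C v = ∑ i, c i := by
    rw [hC]
    simp only
    rw [sum_comm]
    apply sum_congr rfl
    intro i _
    rw [sum_ite_eq, if_pos (mem_univ _)]
  have htau : ∀ a b : F r, tau r (b⁻¹ * a) =
      ((N / (N - 1) : ℝ) : ℂ) * (if Psi r a = Psi r b then 1 else 0) - ((1 / (N - 1) : ℝ) : ℂ) := by
    intro a b
    unfold tau
    rw [← hN]
    by_cases h : Psi r a = Psi r b
    · rw [if_pos ((Psi_eq_iff a b).mpr h), if_pos h, mul_one, ← Complex.ofReal_sub]
      rw [← sub_div, div_self hN1.ne', Complex.ofReal_one]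
    · rw [if_neg (fun h' => h ((Psi_eq_iff a b).mp h')), if_neg h, mul_zero, zero_sub]
      push_cast
      ring
  have hdiag : ∑ i, ∑ j, c i * (starRingEnd ℂ) (c j) * (if Psi r (g i) = Psi r (g j) then (1 : ℂ) else 0)
      = ((∑ v, Complex.normSq (C v) : ℝ) : ℂ) := by
    push_cast
    have h1 : ∀ v, ((Complex.normSq (C v) : ℝ) : ℂ) = ∑ i, ∑ j, c i * (starRingEnd ℂ) (c j) *
        ((if Psi r (g i) = v then (1 : ℂ) else 0) * (if Psi r (g j) = v then (1 : ℂ) else 0)) := by
      intro v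
      rw [← Complex.mul_conj, hC]
      simp only
      rw [map_sum, sum_mul_sum]
      apply sum_congr rfl
      intro i _
      apply sum_congr rfl
      intro j _
      split_ifs <;> simp
    simp_rw [h1]
    symm
    rw [sum_comm]
    apply sum_congr rfl
    intro i _
    rw [sum_comm]
    apply sum_congr rfl
    intro j _
    rw [← mul_sum]
    congr 1
    rw [Finset.sum_eq_single (Psi r (g i))]
    · rw [if_pos rfl, one_mul]
      by_cases h : Psi r (g i) = Psi r (g j)
      · rw [if_pos h, if_pos h.symm]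
      · rw [if_neg h, if_neg (fun h' => h h'.symm)]
    · intro v _ hv
      rw [if_neg (fun h => hv h.symm), zero_mul]
    · intro h; exact absurd (mem_univ _) h
  have hall : ∑ i, ∑ j, c i * (starRingEnd ℂ) (c j) = ((Complex.normSq (∑ i, c i) : ℝ) : ℂ) := by
    rw [← Complex.mul_conj, map_sum, sum_mul_sum]
  have htotal : ∑ i, ∑ j, c i * (starRingEnd ℂ) (c j) * tau r ((g j)⁻¹ * g i) =
      (((N / (N - 1)) * (∑ v, Complex.normSq (C v)) - (1 / (N - 1)) * Complex.normSq (∑ i, c i) : ℝ) : ℂ) := by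
    push_cast
    have h2 := hdiag
    push_cast at h2
    rw [← h2, ← hall, mul_sum, mul_sum, ← sum_sub_distrib]
    apply sum_congr rfl
    intro i _
    rw [mul_sum, mul_sum, ← sum_sub_distrib]
    apply sum_congr rfl
    intro j _
    rw [htau]
    push_cast
    ring
  rw [htotal, Complex.ofReal_re, Complex.ofReal_im]
  refine ⟨?_, rfl⟩
  have hCS : Complex.normSq (∑ i, c i) ≤ N * ∑ v, Complex.normSq (C v) := by
    rw [← hCsum]
    have h1 : Complex.normSq (∑ v, C v) ≤ (∑ v, ‖C v‖) ^ 2 := by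
      rw [Complex.normSq_eq_norm_sq]
      exact pow_le_pow_left₀ (norm_nonneg _) (norm_sum_le _ _) 2
    have h2 := sq_sum_le_card_mul_sum_sq (s := (univ : Finset (V r))) (f := fun v => ‖C v‖)
    have h3 : ((univ : Finset (V r)).card : ℝ) = N := by
      rw [card_univ, Fintype.card_fun, Fintype.card_fin, Fintype.card_units_int]
      push_cast
      rfl
    rw [h3] at h2
    refine h1.trans (h2.trans (le_of_eq ?_))
    congr 1
    apply sum_congr rfl
    intro v _
    rw [Complex.normSq_eq_norm_sq]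
  have h5 : (N / (N - 1)) * (∑ v, Complex.normSq (C v)) - (1 / (N - 1)) * Complex.normSq (∑ i, c i) =
      (N * (∑ v, Complex.normSq (C v)) - Complex.normSq (∑ i, c i)) / (N - 1) := by ring
  rw [h5]
  exact div_nonneg (by linarith) hN1.le

lemma tau_mem {r : ℕ} (hr : 1 ≤ r) : tau r ∈ P1Aut r := by
  refine ⟨tau_posdef hr, ?_, ?_⟩
  · unfold tau; rw [map_one, if_pos rfl]
  · intro α
    funext g
    show tau r (α g) = tau r g
    unfold tau
    by_cases h : Psi r g = 1
    · rw [if_pos h, if_pos ((Psi_aut_iff α g).mpr h)]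
    · rw [if_neg h, if_neg (fun h' => h ((Psi_aut_iff α g).mp h'))]

lemma two_point {r : ℕ} {φ : F r → ℂ} (h : PosDef φ) (h1 : φ 1 = 1) (g : F r) (a b : ℂ) :
    0 ≤ (a * (starRingEnd ℂ) a + a * (starRingEnd ℂ) b * φ g + (b * (starRingEnd ℂ) a * φ g⁻¹ +
      b * (starRingEnd ℂ) b)).re ∧
    (a * (starRingEnd ℂ) a + a * (starRingEnd ℂ) b * φ g + (b * (starRingEnd ℂ) a * φ g⁻¹ +
      b * (starRingEnd ℂ) b)).im = 0 := by
  have h2 := h 2 ![g, 1] ![a, b]
  simp only [Fin.sum_univ_two, Matrix.cons_val_zero, Matrix.cons_val_one, inv_mul_cancel, inv_one,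
    one_mul, mul_one, h1] at h2
  exact h2

lemma herm {r : ℕ} {φ : F r → ℂ} (h : PosDef φ) (h1 : φ 1 = 1) (g : F r) :
    φ g⁻¹ = (starRingEnd ℂ) (φ g) := by
  have e1 := (two_point h h1 g 1 1).2
  have e2 := (two_point h h1 g 1 Complex.I).2
  simp at e1 e2
  apply Complex.ext
  · rw [Complex.conj_re]; linarith
  · rw [Complex.conj_im]; linarith

lemma re_le_one {r : ℕ} {φ : F r → ℂ} (h : PosDef φ) (h1 : φ 1 = 1) (g : F r) : (φ g).re ≤ 1 := by
  have e1 := (two_point h h1 g 1 (-1)).1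
  rw [herm h h1] at e1
  simp at e1
  linarith

lemma three_point {r : ℕ} {φ : F r → ℂ} (h : PosDef φ) (h1 : φ 1 = 1) {k : F r}
    (hk : (φ k).re = 1) (g : F r) : φ (g * k) = φ g := by
  set δ := φ (g * k) - φ g with hδ
  have key : ∀ M : ℝ, 0 ≤ 1 - 2 * M * Complex.normSq δ := by
    intro M
    have h2 := (h 3 ![g * k, g, 1] ![-(M : ℂ) * (starRingEnd ℂ) δ, (M : ℂ) * (starRingEnd ℂ) δ, 1]).1
    have e1 : g⁻¹ * (g * k) = k := by group
    have e2 : (g * k)⁻¹ * g = k⁻¹ := by group
    simp only [Fin.sum_univ_three, Matrix.cons_val_zero, Matrix.cons_val_one, Matrix.cons_val_two,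
      Matrix.head_cons, Matrix.tail_cons, inv_mul_cancel, inv_one,
      one_mul, mul_one, h1, e1, e2, map_mul, map_neg, Complex.conj_conj, Complex.conj_ofReal, map_one,
      herm h h1] at h2
    have e3 : (starRingEnd ℂ) (φ (g * k)) = (starRingEnd ℂ) (φ g) + (starRingEnd ℂ) δ := by
      rw [hδ, map_sub]; ring
    have e4 : φ (g * k) = φ g + δ := by rw [hδ]; ring
    rw [e3, e4] at h2
    have e5 : φ k + (starRingEnd ℂ) (φ k) = 2 := by
      rw [Complex.add_conj, hk]; norm_num
    have e6 : (-(M : ℂ) * (starRingEnd ℂ) δ * (-(M : ℂ) * δ) +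
        -(M : ℂ) * (starRingEnd ℂ) δ * ((M : ℂ) * δ) * φ k + -(M : ℂ) * (starRingEnd ℂ) δ * (φ g + δ) +
        ((M : ℂ) * (starRingEnd ℂ) δ * (-(M : ℂ) * δ) * (starRingEnd ℂ) (φ k) +
        (M : ℂ) * (starRingEnd ℂ) δ * ((M : ℂ) * δ) + (M : ℂ) * (starRingEnd ℂ) δ * φ g) +
        (-(M : ℂ) * δ * ((starRingEnd ℂ) (φ g) + (starRingEnd ℂ) δ) + (M : ℂ) * δ * (starRingEnd ℂ) (φ g) +
        1)) = 1 - 2 * M * (δ * (starRingEnd ℂ) δ) := by
      have : (starRingEnd ℂ) (φ k) = 2 - φ k := by rw [← e5]; ring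
      rw [this]
      ring
    rw [e6, Complex.mul_conj] at h2
    have e7 : (1 - 2 * (M : ℂ) * ((Complex.normSq δ : ℝ) : ℂ)) =
        ((1 - 2 * M * Complex.normSq δ : ℝ) : ℂ) := by push_cast; ring
    rw [e7, Complex.ofReal_re] at h2
    exact h2
  have h3 : Complex.normSq δ = 0 := by
    by_contra hne
    have hpos : 0 < Complex.normSq δ := lt_of_le_of_ne (Complex.normSq_nonneg _) (Ne.symm hne)
    have := key (1 / Complex.normSq δ)
    have h4 : 2 * (1 / Complex.normSq δ) * Complex.normSq δ = 2 := by field_simp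
    rw [h4] at this
    linarith
  have h4 : δ = 0 := Complex.normSq_eq_zero.mp h3
  rw [hδ, sub_eq_zero] at h4
  exact h4

/-- structure of a member of `P1Aut` with `re φ = 1` on the kernel -/
lemma structure_lemma {r : ℕ} (i₀ : Fin r) {φ : F r → ℂ} (hφ : φ ∈ P1Aut r)
    (hK : ∀ k, Psi r k = 1 → (φ k).re = 1) :
    (∀ g, φ g = if Psi r g = 1 then 1 else φ (FreeGroup.of i₀)) ∧
    (φ (FreeGroup.of i₀)).im = 0 ∧ -(1 / ((2 : ℝ) ^ r - 1)) ≤ (φ (FreeGroup.of i₀)).re := by
  obtain ⟨hpd, h1, hinv⟩ := hφ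
  have hclass : ∀ a b : F r, Psi r a = Psi r b → φ a = φ b := by
    intro a b hab
    have h2 : Psi r (b⁻¹ * a) = 1 := (Psi_eq_iff a b).mpr hab
    have h3 := three_point hpd h1 (hK _ h2) b
    rw [mul_inv_cancel_left] at h3
    exact h3
  have hform : ∀ g, φ g = if Psi r g = 1 then 1 else φ (FreeGroup.of i₀) := by
    intro g
    split_ifs with hg
    · rw [← h1]
      apply hclass
      rw [hg, map_one]
    · obtain ⟨α, hα⟩ := transitive i₀ g hg
      rw [hclass g (α (FreeGroup.of i₀)) hα.symm]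
      exact congrFun (hinv α) (FreeGroup.of i₀)
  have hof : Psi r (FreeGroup.of i₀) ≠ 1 := by
    rw [Psi_of]
    intro h
    have := congrFun h i₀
    rw [Pi.mulSingle_eq_same, Pi.one_apply] at this
    exact absurd this (by decide)
  have him : (φ (FreeGroup.of i₀)).im = 0 := by
    have h2 : φ (FreeGroup.of i₀)⁻¹ = φ (FreeGroup.of i₀) := by
      apply hclass
      rw [map_inv]
      funext j
      rw [Pi.inv_apply]
      exact Int.units_inv_eq_self _
    rw [herm hpd h1] at h2
    have h3 := congrArg Complex.im h2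
    rw [Complex.conj_im] at h3
    linarith
  refine ⟨hform, him, ?_⟩
  have hr : 1 ≤ r := by have := i₀.2; omega
  -- representatives
  choose rep hrep using Psi_surj r
  set en : Fin (2 ^ r) ≃ V r := (Fintype.equivFinOfCardEq (by
    rw [Fintype.card_fun, Fintype.card_fin, Fintype.card_units_int])).symm with hen
  have h2 := (hpd (2 ^ r) (fun i => rep (en i)) (fun _ => 1)).1
  have h3 : ∑ i : Fin (2 ^ r), ∑ j : Fin (2 ^ r), (1 : ℂ) * (starRingEnd ℂ) 1 *
      φ ((rep (en j))⁻¹ * rep (en i)) =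
      ((2 ^ r * (1 + (2 ^ r - 1) * (φ (FreeGroup.of i₀)).re) : ℝ) : ℂ) := by
    set b := φ (FreeGroup.of i₀) with hb
    have hbre : b = ((b.re : ℝ) : ℂ) := by
      apply Complex.ext
      · rw [Complex.ofReal_re]
      · rw [Complex.ofReal_im]; exact him
    have h4 : ∀ i j : Fin (2 ^ r), (1 : ℂ) * (starRingEnd ℂ) 1 * φ ((rep (en j))⁻¹ * rep (en i)) =
        b + (if i = j then 1 - b else 0) := by
      intro i j
      rw [map_one, one_mul, one_mul, hform]
      by_cases hij : i = j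
      · subst hij
        rw [inv_mul_cancel, map_one, if_pos rfl, if_pos rfl]; ring
      · rw [if_neg, if_neg hij, add_zero]
        rw [Psi_eq_iff, hrep, hrep]
        intro h
        exact hij (en.injective h)
    simp_rw [h4, sum_add_distrib]
    rw [sum_const, sum_const]
    have h5 : ∑ x : Fin (2 ^ r), ∑ x_1 : Fin (2 ^ r), (if x = x_1 then 1 - b else 0) =
        (2 ^ r : ℂ) * (1 - b) := by
      simp
      ring
    rw [h5]
    simp only [card_univ, Fintype.card_fin, nsmul_eq_mul]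
    obtain ⟨x, hx⟩ : ∃ x : ℝ, b = (x : ℂ) := ⟨b.re, hbre⟩
    rw [hx, Complex.ofReal_re]
    push_cast
    ring
  rw [h3, Complex.ofReal_re] at h2
  have hpos := two_pow_sub_pos hr
  have h6 : (0 : ℝ) < 2 ^ r := by positivity
  have h7 : 0 ≤ 1 + (2 ^ r - 1) * (φ (FreeGroup.of i₀)).re := by
    by_contra hcon
    push Not at hcon
    nlinarith
  rw [neg_le_iff_add_nonneg']
  have h8 : 1 / ((2 : ℝ) ^ r - 1) + (φ (FreeGroup.of i₀)).re =
      (1 + (2 ^ r - 1) * (φ (FreeGroup.of i₀)).re) / (2 ^ r - 1) := by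
    field_simp
  rw [h8]
  exact div_nonneg h7 hpos.le

/-- For every `r ≥ 2` there is an extreme point of `P1Aut r`, different from the constant
function `1`, that takes a nonzero value (namely `-1/(2^r-1)`) at every free generator. -/
theorem result (r : ℕ) (hr : 2 ≤ r) :
    ∃ τ ∈ (P1Aut r).extremePoints ℝ, τ ≠ (fun _ => 1) ∧
      ∀ i : Fin r, τ (FreeGroup.of i) = -(1 / (((2 : ℝ) ^ r - 1 : ℝ) : ℂ)) ∧
        τ (FreeGroup.of i) ≠ 0 := by
  have hpos := two_pow_sub_pos (show 1 ≤ r by omega)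
  have hval : ∀ i : Fin r, tau r (FreeGroup.of i) = -(1 / (((2 : ℝ) ^ r - 1 : ℝ) : ℂ)) := by
    intro i
    unfold tau
    rw [if_neg]
    rw [Psi_of]
    intro h
    have := congrFun h i
    rw [Pi.mulSingle_eq_same, Pi.one_apply] at this
    exact absurd this (by decide)
  have hvne : ∀ i : Fin r, tau r (FreeGroup.of i) ≠ 0 := by
    intro i
    rw [hval, neg_ne_zero]
    apply one_div_ne_zero
    exact_mod_cast hpos.ne'
  set i₀ : Fin r := ⟨0, by omega⟩ with hi₀
  refine ⟨tau r, ?_, ?_, fun i => ⟨hval i, hvne i⟩⟩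
  · rw [mem_extremePoints]
    refine ⟨tau_mem (by omega), ?_⟩
    rintro φ hφ ψ hψ ⟨a, b, ha, hb, hab, habt⟩
    have hcomb : ∀ g, (a : ℂ) * φ g + (b : ℂ) * ψ g = tau r g := by
      intro g
      have := congrFun habt g
      simpa using this
    have hre : ∀ g, a * (φ g).re + b * (ψ g).re = (tau r g).re := by
      intro g
      rw [← hcomb g]
      simp
    have hK : ∀ k, Psi r k = 1 → (φ k).re = 1 ∧ (ψ k).re = 1 := by
      intro k hk
      have h1 := hre k
      have h2 : tau r k = 1 := by unfold tau; rw [if_pos hk]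
      rw [h2, Complex.one_re] at h1
      have h3 := re_le_one hφ.1 hφ.2.1 k
      have h4 := re_le_one hψ.1 hψ.2.1 k
      constructor <;> nlinarith
    obtain ⟨f1, f2, f3⟩ := structure_lemma i₀ hφ (fun k hk => (hK k hk).1)
    obtain ⟨g1, g2, g3⟩ := structure_lemma i₀ hψ (fun k hk => (hK k hk).2)
    have h5 := hre (FreeGroup.of i₀)
    rw [hval i₀] at h5
    have h6 : (-(1 / (((2 : ℝ) ^ r - 1 : ℝ) : ℂ))).re = -(1 / ((2 : ℝ) ^ r - 1)) := by
      rw [← Complex.ofReal_one, ← Complex.ofReal_div, ← Complex.ofReal_neg, Complex.ofReal_re]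
    rw [h6] at h5
    set m : ℝ := -(1 / ((2 : ℝ) ^ r - 1)) with hm
    have hz : a * ((φ (FreeGroup.of i₀)).re - m) + b * ((ψ (FreeGroup.of i₀)).re - m) = 0 := by
      have : a * ((φ (FreeGroup.of i₀)).re - m) + b * ((ψ (FreeGroup.of i₀)).re - m) =
        a * (φ (FreeGroup.of i₀)).re + b * (ψ (FreeGroup.of i₀)).re - (a + b) * m := by ring
      rw [this, h5, hab]; ring
    have hz1 : 0 ≤ a * ((φ (FreeGroup.of i₀)).re - m) := mul_nonneg ha.le (by linarith)
    have hz2 : 0 ≤ b * ((ψ (FreeGroup.of i₀)).re - m) := mul_nonneg hb.le (by linarith)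
    have hφm : (φ (FreeGroup.of i₀)).re = m := by
      have h7 : a * ((φ (FreeGroup.of i₀)).re - m) = 0 := by linarith
      rcases mul_eq_zero.mp h7 with h8 | h8
      · exact absurd h8 ha.ne'
      · linarith
    have hψm : (ψ (FreeGroup.of i₀)).re = m := by
      have h7 : b * ((ψ (FreeGroup.of i₀)).re - m) = 0 := by linarith
      rcases mul_eq_zero.mp h7 with h8 | h8
      · exact absurd h8 hb.ne'
      · linarith
    have fin1 : ∀ χ : F r → ℂ, (∀ g, χ g = if Psi r g = 1 then 1 else χ (FreeGroup.of i₀)) →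
        (χ (FreeGroup.of i₀)).im = 0 → (χ (FreeGroup.of i₀)).re = m → χ = tau r := by
      intro χ c1 c2 c3
      funext g
      rw [c1 g]
      unfold tau
      split_ifs
      · rfl
      · apply Complex.ext
        · rw [c3, h6]
        · rw [c2, ← Complex.ofReal_one, ← Complex.ofReal_div, ← Complex.ofReal_neg, Complex.ofReal_im]
    exact ⟨fin1 φ f1 f2 hφm, fin1 ψ g1 g2 hψm⟩
  · intro h
    have h1 := congrFun h (FreeGroup.of i₀)
    rw [hval] at h1
    have h2 := congrArg Complex.re h1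
    rw [← Complex.ofReal_one, ← Complex.ofReal_div, ← Complex.ofReal_neg, Complex.ofReal_re,
      Complex.ofReal_re] at h2
    have h3 : 0 < 1 / ((2 : ℝ) ^ r - 1) := by positivity
    linarith

end Pool.Agent.Results.MP_4640da_an.NonzeroAtGenerator
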